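import Pool.Agent.helper33.CVX.Spec

/-!
# Calculus of components (row cvx:CMP)
-/

set_option autoImplicit false

namespace Pool.Agent.CVX

open MvPolynomial

theorem CMP_coeff_pos {ι : Type} (n v : ι → ℕ) (F : MvPolynomial (Vr n) ℂ) {m : Vr n →₀ ℕ}
    (h : ∀ i, mdeg n m i = v i) : coeff m (comp n v F) = coeff m F := by
  classical
  unfold comp
  rw [coeff_sum]
  simp only [coeff_monomial]
  by_cases hm : m ∈ F.support
  · rw [Finset.sum_eq_single m]
    · rw [if_pos rfl]
    · intro b _ hb
      rw [if_neg hb]
    · intro hm'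
      exact absurd (Finset.mem_filter.2 ⟨hm, h⟩) hm'
  · rw [Finset.sum_eq_zero, notMem_support_iff.1 hm]
    intro b hb
    rw [if_neg]
    rintro rfl
    exact hm (Finset.mem_filter.1 hb).1

theorem CMP_coeff_neg {ι : Type} (n v : ι → ℕ) (F : MvPolynomial (Vr n) ℂ) {m : Vr n →₀ ℕ}
    (h : ¬ ∀ i, mdeg n m i = v i) : coeff m (comp n v F) = 0 := by
  classical
  unfold comp
  rw [coeff_sum]
  simp only [coeff_monomial]
  rw [Finset.sum_eq_zero]
  intro b hb
  rw [if_neg]
  rintro rfl
  exact h (Finset.mem_filter.1 hb).2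

theorem CMP_mdeg_add {ι : Type} (n : ι → ℕ) (a b : Vr n →₀ ℕ) (i : ι) :
    mdeg n (a + b) i = mdeg n a i + mdeg n b i := by
  unfold mdeg
  rw [← Finset.sum_add_distrib]
  exact Finset.sum_congr rfl fun x _ => by rw [Finsupp.add_apply]

/-- **CMP**: calculus of components. -/
theorem CMP : CMP_stmt := by
  intro ι _ _ n
  refine ⟨?_, ?_, ?_, ?_, ?_, ?_⟩
  · intro v F m hm
    by_contra h
    exact (mem_support_iff.1 hm) (CMP_coeff_neg n v F fun h' => h h')
  · intro v F hF
    ext m
    by_cases h : ∀ i, mdeg n m i = v i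
    · exact CMP_coeff_pos n v F h
    · rw [CMP_coeff_neg n v F h]
      by_contra h0
      exact h (hF m (mem_support_iff.2 (Ne.symm h0)))
  · intro v F G
    ext m
    rw [coeff_add]
    by_cases h : ∀ i, mdeg n m i = v i
    · rw [CMP_coeff_pos n v _ h, CMP_coeff_pos n v _ h, CMP_coeff_pos n v _ h, coeff_add]
    · rw [CMP_coeff_neg n v _ h, CMP_coeff_neg n v _ h, CMP_coeff_neg n v _ h, add_zero]
  · intro u v G F hG huv
    ext m
    by_cases h : ∀ i, mdeg n m i = v i
    · rw [CMP_coeff_pos n v _ h, coeff_mul, coeff_mul]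
      refine Finset.sum_congr rfl fun x hx => ?_
      rw [Finset.HasAntidiagonal.mem_antidiagonal] at hx
      by_cases h0 : coeff x.1 G = 0
      · rw [h0, zero_mul, zero_mul]
      · rw [CMP_coeff_pos n (v - u) F]
        intro i
        have h1 := hG x.1 (mem_support_iff.2 h0) i
        have h2 := h i
        rw [← hx, CMP_mdeg_add, h1] at h2
        rw [Pi.sub_apply]
        omega
    · rw [CMP_coeff_neg n v _ h, coeff_mul]
      symm
      refine Finset.sum_eq_zero fun x hx => ?_
      rw [Finset.HasAntidiagonal.mem_antidiagonal] at hx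
      by_cases h0 : coeff x.1 G = 0
      · rw [h0, zero_mul]
      · rw [CMP_coeff_neg n (v - u) F, mul_zero]
        intro h3
        refine h fun i => ?_
        have h1 := hG x.1 (mem_support_iff.2 h0) i
        have h2 := h3 i
        rw [Pi.sub_apply] at h2
        rw [← hx, CMP_mdeg_add, h1]
        have h4 : u i ≤ v i := huv i
        omega
  · intro u v G F hG huv
    ext m
    rw [coeff_zero]
    by_cases h : ∀ i, mdeg n m i = v i
    · rw [CMP_coeff_pos n v _ h, coeff_mul]
      refine Finset.sum_eq_zero fun x hx => ?_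
      rw [Finset.HasAntidiagonal.mem_antidiagonal] at hx
      by_cases h0 : coeff x.1 G = 0
      · rw [h0, zero_mul]
      · exfalso
        refine huv fun i => ?_
        have h1 := hG x.1 (mem_support_iff.2 h0) i
        have h2 := h i
        rw [← hx, CMP_mdeg_add, h1] at h2
        show u i ≤ v i
        omega
    · exact CMP_coeff_neg n v _ h
  · intro F
    refine ⟨F.support.image (fun m => mdeg n m), ?_⟩
    ext m
    rw [coeff_sum]
    by_cases hm : m ∈ F.support
    · rw [Finset.sum_eq_single (mdeg n m)]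
      · exact (CMP_coeff_pos n _ F fun _ => rfl).symm
      · intro v _ hv
        refine CMP_coeff_neg n v F fun h => hv ?_
        funext i
        exact (h i).symm
      · intro h
        exact absurd (Finset.mem_image_of_mem _ hm) h
    · rw [notMem_support_iff.1 hm]
      symm
      refine Finset.sum_eq_zero fun v _ => ?_
      by_cases h : ∀ i, mdeg n m i = v i
      · rw [CMP_coeff_pos n v _ h]
        exact notMem_support_iff.1 hm
      · exact CMP_coeff_neg n v _ h

end Pool.Agent.CVX
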