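import Pool.Agent.helper16.CVX.CMP

/-!
# Components of polynomials vanishing on a torus-stable set (row cvx:HMC)
-/

set_option autoImplicit false

namespace Pool.Agent.CVX

open MvPolynomial

/-- **HMC**: the components of a polynomial vanishing on a torus-stable set vanish on it. -/
theorem HMC (hHSC : HSC_stmt) (hCMP : CMP_stmt) : HMC_stmt := by
  intro ι _ _ n Z hZ F hF v x hx
  obtain ⟨V, hV⟩ := (hCMP ι n).2.2.2.2.2 F
  have hne : v ∉ V → comp n v F = 0 := by
    intro hv
    ext m
    rw [coeff_zero]
    by_cases h : ∀ i, mdeg n m i = v i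
    · rw [CMP_coeff_pos n v F h, hV, coeff_sum]
      refine Finset.sum_eq_zero fun w hw => ?_
      refine CMP_coeff_neg n w F fun h' => ?_
      have : v = w := by
        funext i
        rw [← h i, h' i]
      exact hv (this ▸ hw)
    · exact CMP_coeff_neg n v F h
  by_cases hv : v ∈ V
  swap
  · rw [hne hv, map_zero]
  -- the polynomial in the torus variables
  let P : MvPolynomial ι ℂ := ∑ w ∈ V, monomial (Finsupp.equivFunOnFinite.symm w)
    (eval x (comp n w F))
  have hP : ∀ t : ι → ℂ, (∀ i, t i ≠ 0) → eval t P = 0 := by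
    intro t ht
    have h1 : eval (fun v : Vr n => t v.1 * x v) F = 0 := hF _ (hZ x hx t ht)
    rw [hV, map_sum] at h1
    rw [← h1]
    show eval t (∑ w ∈ V, monomial (Finsupp.equivFunOnFinite.symm w) (eval x (comp n w F))) = _
    rw [map_sum]
    refine Finset.sum_congr rfl fun w _ => ?_
    rw [hHSC ι n w (comp n w F) ((hCMP ι n).1 w F) t x, eval_monomial, mul_comm,
      Finsupp.prod_fintype _ _ (fun i => pow_zero _)]
    rfl
  have hP0 : P = 0 := by
    have h1 : P * ∏ i, X i = 0 := by
      refine MvPolynomial.funext fun t => ?_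
      rw [map_mul, map_zero, map_prod]
      by_cases ht : ∀ i, t i ≠ 0
      · rw [hP t ht, zero_mul]
      · push Not at ht
        obtain ⟨i, hi⟩ := ht
        rw [Finset.prod_eq_zero (Finset.mem_univ i), mul_zero]
        rw [eval_X, hi]
    rcases mul_eq_zero.1 h1 with h | h
    · exact h
    · exfalso
      obtain ⟨i, -, hi⟩ := Finset.prod_eq_zero_iff.1 h
      exact X_ne_zero i hi
  have h2 : coeff (Finsupp.equivFunOnFinite.symm v) P = eval x (comp n v F) := by
    show coeff (Finsupp.equivFunOnFinite.symm v)
      (∑ w ∈ V, monomial (Finsupp.equivFunOnFinite.symm w) (eval x (comp n w F))) = _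
    rw [coeff_sum, Finset.sum_eq_single v]
    · classical
      rw [coeff_monomial, if_pos rfl]
    · intro w _ hw
      classical
      rw [coeff_monomial, if_neg]
      intro h
      exact hw (Finsupp.equivFunOnFinite.symm.injective h)
    · intro h
      exact absurd hv h
  rw [← h2, hP0, coeff_zero]

end Pool.Agent.CVX
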