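import Pool.Agent.helper33.CVX.Spec

/-!
# Dimension of the quotient (row cvx:QUO)
-/

set_option autoImplicit false

namespace Pool.Agent.CVX

open MvPolynomial

theorem QUO_lin {S W Q : Type*} [AddCommGroup S] [Module ℂ S] [Module.Finite ℂ S] [AddCommGroup W]
    [Module ℂ W] [AddCommGroup Q] [Module ℂ Q] (A : S →ₗ[ℂ] W) (B : S →ₗ[ℂ] Q) :
    Module.finrank ℂ (LinearMap.range A) ≤
      Module.finrank ℂ ((LinearMap.ker B).map A) + Module.finrank ℂ (LinearMap.range B) := by
  obtain ⟨K, hK⟩ := (LinearMap.ker B).exists_isCompl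
  have h1 := LinearMap.finrank_range_add_finrank_ker B
  have h2 := Submodule.finrank_add_eq_of_isCompl hK
  have h3 : LinearMap.range A = (LinearMap.ker B).map A ⊔ K.map A := by
    rw [← Submodule.map_sup, hK.sup_eq_top, Submodule.map_top]
  have h4 := Submodule.finrank_add_le_finrank_add_finrank ((LinearMap.ker B).map A) (K.map A)
  have h5 := Submodule.finrank_map_le A K
  rw [h3]
  omega

/-- **QUO**: dimension of the quotient. -/
theorem QUO (hFDM : FDM_stmt) (hCMP : CMP_stmt) (hHMC : HMC_stmt) : QUO_stmt := by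
  intro ι _ _ n Z hTS v w f hf
  have hfin := hFDM ι n (v + w)
  have hfinv := hFDM ι n v
  set J := VI n Z ⊔ Ideal.span {f} with hJ
  set A : Sv n (v + w) →ₗ[ℂ] (Z → ℂ) := (ev n Z).comp (Sv n (v + w)).subtype with hA
  set B : Sv n (v + w) →ₗ[ℂ] (MvPolynomial (Vr n) ℂ ⧸ J) :=
    (Ideal.Quotient.mkₐ ℂ J).toLinearMap.comp (Sv n (v + w)).subtype with hB
  have h1 := QUO_lin A B
  have h2 : LinearMap.range A = (Sv n (v + w)).map (ev n Z) := by
    rw [hA, LinearMap.range_comp, Submodule.range_subtype]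
  have h3 : LinearMap.range B = (Sv n (v + w)).map (Ideal.Quotient.mkₐ ℂ J).toLinearMap := by
    rw [hB, LinearMap.range_comp, Submodule.range_subtype]
  rw [h2, h3] at h1
  have h4 : (LinearMap.ker B).map A ≤
      ((Sv n v).map (ev n Z)).map (LinearMap.mulLeft ℂ (ev n Z f)) := by
    rintro _ ⟨F, hF, rfl⟩
    have hF0 : (F : MvPolynomial (Vr n) ℂ) ∈ J := by
      have h5 : B F = 0 := hF
      rw [hB] at h5
      exact Ideal.Quotient.eq_zero_iff_mem.1 h5
    rw [hJ] at hF0
    obtain ⟨p, hp, q, hq, hpq⟩ := Submodule.mem_sup.1 hF0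
    obtain ⟨c, rfl⟩ := Ideal.mem_span_singleton'.1 hq
    obtain ⟨c1, c2, c3, c4, -, -⟩ := hCMP ι n
    have hFh : MHom n (v + w) (F : MvPolynomial (Vr n) ℂ) := F.2
    have h6 : (F : MvPolynomial (Vr n) ℂ) = comp n (v + w) p + f * comp n v c := by
      have h7 := c2 (v + w) _ hFh
      rw [← hpq, c3, mul_comm c f, c4 w (v + w) f c hf (fun i => Nat.le_add_left _ _)] at h7
      rw [← hpq, mul_comm c f, ← h7]
      have h8 : v + w - w = v := by
        funext i
        simp
      rw [h8]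
    refine ⟨ev n Z (comp n v c), ⟨comp n v c, c1 v c, rfl⟩, ?_⟩
    funext z
    have h9 : eval z.1 (comp n (v + w) p) = 0 := hHMC ι n Z hTS p hp (v + w) z.1 z.2
    show eval z.1 f * eval z.1 (comp n v c) = eval z.1 (F : MvPolynomial (Vr n) ℂ)
    rw [h6, map_add, map_mul, h9, zero_add]
  have h5 : Module.finrank ℂ ((LinearMap.ker B).map A) ≤
      Module.finrank ℂ (((Sv n v).map (ev n Z)).map (LinearMap.mulLeft ℂ (ev n Z f))) :=
    Submodule.finrank_mono h4
  have h6 : Module.finrank ℂ (((Sv n v).map (ev n Z)).map (LinearMap.mulLeft ℂ (ev n Z f))) ≤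
      Module.finrank ℂ ((Sv n v).map (ev n Z)) := Submodule.finrank_map_le _ _
  unfold hZ qd
  omega

end Pool.Agent.CVX
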