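import Pool.Agent.helper33.CVX.Spec

/-!
# Forms of degree zero in a group (row cvx:RES)
-/

set_option autoImplicit false

namespace Pool.Agent.CVX

open MvPolynomial

/-- **RES**: a form of degree zero in the group `i` is a form in the other groups. -/
theorem RES : RES_stmt := by
  intro ι _ _ n d F i hF hd
  let φ : Vr (fun k : {k : ι // k ≠ i} => n k.1) → Vr n := fun v => ⟨v.1.1, v.2⟩
  have hφ : Function.Injective φ := by
    rintro ⟨⟨k, hk⟩, a⟩ ⟨⟨k', hk'⟩, a'⟩ h
    have h1 : k = k' := congrArg Sigma.fst h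
    subst h1
    have h2 : a = a' := by
      have h3 := (Sigma.mk.injEq _ _ _ _).mp h
      exact eq_of_heq h3.2
    rw [h2]
  have hm0 : ∀ m ∈ F.support, ∀ a : Fin (n i + 1), m ⟨i, a⟩ = 0 := by
    intro m hm a
    have h1 := hF m hm i
    rw [hd] at h1
    unfold mdeg at h1
    exact Finset.sum_eq_zero_iff.1 h1 a (Finset.mem_univ a)
  refine ⟨∑ m ∈ F.support, monomial (m.comapDomain φ hφ.injOn) (coeff m F), ?_, ?_⟩
  · intro m' hm' k
    classical
    have h1 := support_sum hm'
    rw [Finset.mem_biUnion] at h1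
    obtain ⟨m, hm, h2⟩ := h1
    have h3 := Finset.mem_singleton.1 (support_monomial_subset h2)
    rw [h3]
    have h4 := hF m hm k.1
    exact h4
  · intro x
    rw [eval_eq', map_sum]
    refine Finset.sum_congr rfl fun m hm => ?_
    rw [eval_monomial, Finsupp.prod_fintype _ _ (fun v => pow_zero _)]
    congr 1
    symm
    refine Fintype.prod_of_injective φ hφ _ _ ?_ ?_
    · intro v hv
      have h5 : v.1 = i := by
        by_contra h6
        exact hv ⟨⟨⟨v.1, h6⟩, v.2⟩, rfl⟩
      obtain ⟨k, a⟩ := v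
      simp only at h5
      subst h5
      rw [hm0 m hm a, pow_zero]
    · intro v
      rfl

end Pool.Agent.CVX
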