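import Pool.Agent.helper33.CVX.Spec

/-!
# The step of the dimension theorem (row cvx:STP)
-/

set_option autoImplicit false

namespace Pool.Agent.CVX

open MvPolynomial

/-- **STP**: the step of the dimension theorem. -/
theorem STP (hNST : NST_stmt) (hHSC : HSC_stmt) (hFGH : FGH_stmt) (hQUO : QUO_stmt)
    (hDEC : DEC_stmt) : STP_stmt := by
  intro ι _ _ n Z hPt hTS hCl w f hf
  set Z' : Set (Vr n → ℂ) := {x | x ∈ Z ∧ eval x f = 0} with hZ'
  have hPt' : ∀ x ∈ Z', Pt n x := fun x hx => hPt x hx.1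
  have hTS' : TS n Z' := by
    intro x hx t ht
    refine ⟨hTS x hx.1 t ht, ?_⟩
    rw [hHSC ι n w f hf t x, hx.2, mul_zero]
  obtain ⟨q, g, u, hG⟩ := hFGH ι n Z' hTS'
  set J := VI n Z ⊔ Ideal.span {f} with hJ
  have hVIJ : VI n Z ≤ J := le_sup_left
  have hfJ : f ∈ J := (le_sup_right : Ideal.span {f} ≤ J) (Ideal.subset_span rfl)
  have hzero : ∀ (i : Fin q) (a : ∀ i, Fin (n i + 1)), ∀ x : Vr n → ℂ,
      (∀ p ∈ J, eval x p = 0) → eval x (g i * bm n a) = 0 := by
    intro i a x hx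
    rw [map_mul]
    by_cases hb : eval x (bm n a) = 0
    · rw [hb, mul_zero]
    · have h1 : Pt n x := by
        intro l
        refine ⟨a l, fun h0 => hb ?_⟩
        unfold bm
        rw [map_prod]
        refine Finset.prod_eq_zero (Finset.mem_univ l) ?_
        rw [eval_X, h0]
      have h2 : x ∈ Z := by
        obtain ⟨I, hI⟩ := hCl
        have hIV : ∀ p ∈ I, p ∈ VI n Z := by
          intro p hp y hy
          rw [hI] at hy
          exact hy.2 p hp
        rw [hI]
        exact ⟨h1, fun p hp => hx p (hVIJ (hIV p hp))⟩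
      have h3 : x ∈ Z' := ⟨h2, hx f hfJ⟩
      rw [hG.van i x h3, zero_mul]
  have hpow : ∀ (i : Fin q) (a : ∀ i, Fin (n i + 1)), ∃ N : ℕ, (g i * bm n a) ^ N ∈ J :=
    fun i a => hNST (Vr n) J _ (hzero i a)
  choose E hE using hpow
  set m : ℕ := Finset.univ.sup fun p : Fin q × (∀ i, Fin (n i + 1)) => E p.1 p.2 with hm
  have hEm : ∀ (i : Fin q) (a : ∀ i, Fin (n i + 1)), (g i * bm n a) ^ m ∈ J := by
    intro i a
    have h1 : E i a ≤ m :=
      Finset.le_sup (f := fun p : Fin q × (∀ i, Fin (n i + 1)) => E p.1 p.2) (Finset.mem_univ (i, a))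
    obtain ⟨c, hc⟩ := pow_dvd_pow (g i * bm n a) h1
    rw [hc]
    exact J.mul_mem_right _ (hE i a)
  have hword : ∀ (w' : Fin (q * m + 1) → Fin q) (a : ∀ i, Fin (n i + 1)),
      (∏ j, g (w' j)) * bm n a ^ (q * m + 1) ∈ J := by
    intro w' a
    obtain ⟨i, hi⟩ := Fintype.exists_lt_card_fiber_of_mul_lt_card (n := m) w' (by
      rw [Fintype.card_fin, Fintype.card_fin]
      omega)
    have hq : 1 ≤ q := by
      have := i.2
      omega
    have h1 : g i ^ m ∣ ∏ j, g (w' j) := by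
      have h2 : ∏ j ∈ Finset.univ.filter (fun j => w' j = i), g (w' j) ∣ ∏ j, g (w' j) :=
        Finset.prod_dvd_prod_of_subset _ _ _ (Finset.filter_subset _ _)
      have h3 : ∏ j ∈ Finset.univ.filter (fun j => w' j = i), g (w' j) =
          g i ^ (Finset.univ.filter (fun j => w' j = i)).card := by
        rw [Finset.prod_congr rfl (g := fun _ => g i), Finset.prod_const]
        intro j hj
        rw [(Finset.mem_filter.1 hj).2]
      rw [h3] at h2
      exact (pow_dvd_pow _ hi.le).trans h2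
    have h4 : bm n a ^ m ∣ bm n a ^ (q * m + 1) := by
      refine pow_dvd_pow _ ?_
      have : 1 * m ≤ q * m := Nat.mul_le_mul_right m hq
      omega
    have h5 : (g i * bm n a) ^ m ∣ (∏ j, g (w' j)) * bm n a ^ (q * m + 1) := by
      rw [mul_pow]
      exact mul_dvd_mul h1 h4
    obtain ⟨c, hc⟩ := h5
    rw [hc]
    exact J.mul_mem_right _ (hEm i a)
  obtain ⟨K, v0, hK⟩ := hDEC ι n Z' hPt' q g u hG J (q * m + 1) hword
  refine ⟨K, v0, fun v hv => ?_⟩
  have h6 := hQUO ι n Z hTS v w f hf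
  have h7 := hK (v + w) (hv.trans (fun i => Nat.le_add_right _ _))
  rw [← hJ] at h6
  exact h6.trans (Nat.add_le_add_left h7 _)

end Pool.Agent.CVX
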